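import Mathlib

set_option autoImplicit false
set_option maxSynthPendingDepth 3

namespace Pool.Agent.Results.MP_34a732_nt.Counter

open Finset

def binom (a : ℚ) (k : ℕ) : ℚ := (∏ i ∈ range k, (a - i)) / k.factorial

def S1 (p : ℕ) : ℚ := ∑ k ∈ range p, binom (-1 / 3) k * binom (-1 / 6) k * (27 / 16) ^ k

/-- `a ≡ b (mod p²)` in `ℤ_(p)`: `(a - b) / p²` has denominator prime to `p`. -/
def Cong (p : ℕ) (a b : ℚ) : Prop := ¬ p ∣ ((a - b) / p ^ 2).den

instance : Fact (Nat.Prime 11) := ⟨by norm_num⟩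
instance h31 : Fact (Nat.Prime 31) := ⟨by norm_num⟩
instance h59 : Fact (Nat.Prime 59) := ⟨by norm_num⟩

/-- The displayed congruence for `S₁(p)` fails in both cases (`p = 31` and `p = 59`). -/
theorem result :
    (∃ (p : ℕ) (_ : Fact p.Prime) (x y : ℤ), 11 < p ∧ legendreSym 11 p = 1 ∧
      4 * p = x ^ 2 + 11 * y ^ 2 ∧ p % 3 = 1 ∧
      ¬ Cong p (S1 p) (-(quadraticChar (ZMod p) (-11 + x / y) : ℤ) * (legendreSym 11 x : ℤ) *
        (x - p / x))) ∧
    (∃ (p : ℕ) (_ : Fact p.Prime) (x y : ℤ), 11 < p ∧ legendreSym 11 p = 1 ∧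
      4 * p = x ^ 2 + 11 * y ^ 2 ∧ p % 3 = 2 ∧
      ¬ Cong p (S1 p) (-1 / 4 * (quadraticChar (ZMod p)
        (-11 + (legendreSym 11 x : ℤ) * x / y) : ℤ) * (11 * y - p / y))) := by
  refine ⟨⟨31, h31, 5, 3, by norm_num, by norm_num, by norm_num, rfl, ?_⟩,
    ⟨59, h59, 15, 1, by norm_num, by norm_num, by norm_num, rfl, ?_⟩⟩
  · have h1 : (-11 + ((5 : ℤ) : ZMod 31) / ((3 : ℤ) : ZMod 31)) = 1 := by
      rw [show ((5 : ℤ) : ZMod 31) / ((3 : ℤ) : ZMod 31) = 12 from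
        (div_eq_iff (by decide)).2 (by decide)]
      decide
    rw [h1, map_one, show legendreSym 11 5 = 1 by norm_num]
    unfold Cong
    decide +kernel
  · have h1 : (-11 + ((1 : ℤ) : ZMod 59) * ((15 : ℤ) : ZMod 59) / ((1 : ℤ) : ZMod 59)) = 2 ^ 2 := by
      rw [Int.cast_one, div_one]
      decide
    rw [show legendreSym 11 15 = 1 by norm_num, h1, quadraticChar_sq_one' (by decide)]
    unfold Cong
    decide +kernel

end Pool.Agent.Results.MP_34a732_nt.Counter
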